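import Pool.Agent.U823.JL.Pow

/-!
# Common almost periods in `L¹` and `L²`
-/

set_option autoImplicit false

namespace Pool.Agent.U823.JL

open NumberField IsDedekindDomain MeasureTheory Filter Topology Set
open Pool.Agent.TH339.MP Pool.Agent.TH345.ET Pool.Agent.U823.EW Pool.Agent.U823.UA

theorem family_ap (d : ℕ) : ∃ Λ : ℝ → ℝ, (∀ ε, 0 < ε → 0 < Λ ε) ∧
    ∀ ε, 0 < ε → ∀ a : ℝ, ∃ τ ∈ Icc a (a + Λ ε),
      ∀ (K : Type) [Field K] [NumberField K] (W : HeightOneSpectrum (𝓞 K) → WeierstrassCurve (𝓞 K))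
        (b : PP → ℂ), Module.finrank ℚ K ≤ d →
        (∀ x, ‖b x‖ ≤ ((Module.finrank ℚ K : ℝ) * 2) / (x.2 + 1 : ℕ)) → ∀ t : ℝ,
        (IntervalIntegrable (fun u => (Lg W b (u + τ) - Lg W b u) ^ 2) volume t (t + 1) ∧
          ∫ u in t..(t + 1), (Lg W b (u + τ) - Lg W b u) ^ 2 ≤ ε ^ 2 / 5000000) ∧
        ∫ u in t..(t + 1), |Lg W b (u + τ) - Lg W b u| ≤ ε := by
  choose! Λ₀ hΛ₀ hΛ using fun (η : ℝ) (hη : 0 < η) => common d hη
  refine ⟨fun ε => Λ₀ (ε ^ 2 / 5000000), fun ε hε => hΛ₀ _ (by positivity), fun ε hε a => ?_⟩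
  obtain ⟨τ, hτ, h⟩ := hΛ (ε ^ 2 / 5000000) (by positivity) a
  refine ⟨τ, hτ, fun K _ _ W b hd hb t => ?_⟩
  obtain ⟨i1, h1⟩ := diff_le (W := W) hb (by positivity) (h K W b hd hb) t
  refine ⟨⟨i1, h1⟩, ?_⟩
  have i2 : IntervalIntegrable (fun u => Lg W b (u + τ)) volume t (t + 1) := by
    have := (Lg_integrable (W := W) hb (t + τ) (t + 1 + τ)).comp_add_right τ
    simpa using this
  have i3 := Lg_integrable (W := W) hb t (t + 1)
  have h2 : ∫ u in t..(t + 1), |Lg W b (u + τ) - Lg W b u| ≤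
      ∫ u in t..(t + 1), (ε / 2 + (1 / (2 * ε)) * (Lg W b (u + τ) - Lg W b u) ^ 2) := by
    refine intervalIntegral.integral_mono_on (by linarith) (i2.sub i3).abs
      (intervalIntegrable_const.add (i1.const_mul _)) fun u _ => ?_
    set x := Lg W b (u + τ) - Lg W b u with hx
    have h4 : 0 ≤ (|x| - ε) ^ 2 := sq_nonneg _
    have h5 : |x| ^ 2 = x ^ 2 := sq_abs x
    have h6 : ε / 2 + 1 / (2 * ε) * x ^ 2 = (ε ^ 2 + x ^ 2) / (2 * ε) := by
      field_simp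
    rw [h6, le_div_iff₀ (by positivity)]
    nlinarith
  refine h2.trans ?_
  rw [intervalIntegral.integral_add intervalIntegrable_const (i1.const_mul _),
    intervalIntegral.integral_const, intervalIntegral.integral_const_mul]
  have e2 : (t + 1 - t) • (ε / 2) = ε / 2 := by
    rw [smul_eq_mul]
    ring
  rw [e2]
  have h7 : 1 / (2 * ε) * ∫ u in t..(t + 1), (Lg W b (u + τ) - Lg W b u) ^ 2 ≤
      1 / (2 * ε) * ε ^ 2 := by
    refine mul_le_mul_of_nonneg_left (h1.trans ?_) (by positivity)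
    rw [div_le_iff₀ (by norm_num)]
    nlinarith [sq_nonneg ε]
  have e3 : 1 / (2 * ε) * ε ^ 2 = ε / 2 := by field_simp
  linarith

end Pool.Agent.U823.JL
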