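import Pool.Agent.U823.JL.Osc

/-!
# The coefficients at the primes are bounded by the mean size
-/

set_option autoImplicit false

namespace Pool.Agent.U823.JL

open NumberField IsDedekindDomain MeasureTheory Filter Topology Set
open Pool.Agent.TH339.MP Pool.Agent.TH345.ET Pool.Agent.U823.EW Pool.Agent.U823.UA

section
variable {K : Type} [Field K] [NumberField K]

lemma elf_ne (W : HeightOneSpectrum (𝓞 K) → WeierstrassCurve (𝓞 K)) (v : HeightOneSpectrum (𝓞 K))
    (u : ℝ) : elf W v (ep u + 1 / 2) ≠ 0 := by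
  unfold elf lfac
  refine inv_ne_zero ?_
  refine den_ne (two_le_nm v) (av_triv W v) ?_ ?_
  · split_ifs
    · simp
    · simp
  · unfold ep
    simp
    norm_num

lemma elf_cont (W : HeightOneSpectrum (𝓞 K) → WeierstrassCurve (𝓞 K)) (v : HeightOneSpectrum (𝓞 K)) :
    Continuous fun u : ℝ => Real.log ‖elf W v (ep u + 1 / 2)‖ := by
  have h1 : Continuous fun u : ℝ => elf W v (ep u + 1 / 2) := by
    rw [continuous_iff_continuousAt]
    intro u
    refine ContinuousAt.comp (g := elf W v) (f := fun u : ℝ => ep u + 1 / 2) ?_ ?_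
    · refine (elf_analytic W v ?_).continuousAt
      unfold ep
      simp
      norm_num
    · unfold ep
      fun_prop
  exact h1.norm.log fun u => norm_ne_zero_iff.2 (elf_ne W v u)

lemma ee_per {q : ℝ} (hq : 0 < Real.log q) : ee (-Real.log q) (2 * Real.pi / Real.log q) = 1 := by
  unfold ee
  have h1 : -Real.log q * (2 * Real.pi / Real.log q) = -(2 * Real.pi) := by
    field_simp
  rw [h1]
  push_cast
  rw [neg_mul, Complex.exp_neg, Complex.exp_two_pi_mul_I, inv_one]

lemma elf_per (W : HeightOneSpectrum (𝓞 K) → WeierstrassCurve (𝓞 K)) (v : HeightOneSpectrum (𝓞 K))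
    (u : ℝ) : elf W v (ep (u + 2 * Real.pi / Real.log (nm v)) + 1 / 2) = elf W v (ep u + 1 / 2) := by
  have hq : 0 < Real.log (nm v) := Real.log_pos (by exact_mod_cast two_le_nm v)
  have h1 := elf_inv_ap W v (τ := 2 * Real.pi / Real.log (nm v)) (δ := 0)
    (by rw [ee_per hq, sub_self, norm_zero]) u
  rw [mul_zero] at h1
  have h2 := norm_le_zero_iff.1 h1
  exact inv_injective (sub_eq_zero.1 h2)

lemma ee_ne {p : ℕ} (hp : p.Prime) (hp5 : 5 ≤ p) {v : HeightOneSpectrum (𝓞 K)}
    (hv : v ∈ (S6 : Finset (HeightOneSpectrum (𝓞 K)))) :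
    ee (Real.log p) (2 * Real.pi / Real.log (nm v)) ≠ 1 := by
  classical
  intro h
  have hq2 := two_le_nm v
  have hq : 0 < Real.log (nm v) := Real.log_pos (by exact_mod_cast two_le_nm v)
  have hp1 : 0 < Real.log p := Real.log_pos (by exact_mod_cast (by omega : 1 < p))
  unfold ee at h
  rw [Complex.exp_eq_one_iff] at h
  obtain ⟨n, hn⟩ := h
  have h1 : (((Real.log p * (2 * Real.pi / Real.log (nm v)) : ℝ)) : ℂ) =
      (((n : ℝ) * (2 * Real.pi) : ℝ) : ℂ) := by
    have h2 : (((Real.log p * (2 * Real.pi / Real.log (nm v)) : ℝ)) : ℂ) * Complex.I =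
        (((n : ℝ) * (2 * Real.pi) : ℝ) : ℂ) * Complex.I := by
      rw [hn]
      push_cast
      ring
    exact mul_right_cancel₀ Complex.I_ne_zero h2
  have h2 : Real.log p * (2 * Real.pi / Real.log (nm v)) = n * (2 * Real.pi) := by exact_mod_cast h1
  have hpi := Real.pi_pos
  have h3 : Real.log p = n * Real.log (nm v) := by
    have h4 : Real.log p * (2 * Real.pi) = n * (2 * Real.pi) * Real.log (nm v) := by
      rw [← h2]
      field_simp
    have h5 : (2 * Real.pi) * (Real.log p - n * Real.log (nm v)) = 0 := by linarith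
    rcases mul_eq_zero.1 h5 with h6 | h6
    · linarith
    · linarith
  have hn0 : 0 < n := by
    by_contra hn
    have : (n : ℝ) ≤ 0 := by exact_mod_cast not_lt.1 hn
    nlinarith
  obtain ⟨m, rfl⟩ : ∃ m : ℕ, n = m := ⟨n.toNat, (Int.toNat_of_nonneg hn0.le).symm⟩
  have hm0 : m ≠ 0 := by
    rintro rfl
    simp at hn0
  have h4 : Real.log p = Real.log ((nm v : ℝ) ^ m) := by
    rw [Real.log_pow, h3]
    push_cast
    rfl
  have h5 : (p : ℝ) = (nm v : ℝ) ^ m := by
    refine Real.log_injOn_pos (Set.mem_Ioi.2 ?_) (Set.mem_Ioi.2 ?_) h4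
    · exact_mod_cast (by omega : 0 < p)
    · have : (0 : ℝ) < nm v := by exact_mod_cast (by omega : 0 < nm v)
      positivity
  have h6 : p = nm v ^ m := by exact_mod_cast h5
  have h7 : (pr v : ℕ) ∣ p := by
    rw [h6, nm_eq]
    exact dvd_pow (dvd_pow_self _ (dg_pos v).ne') hm0
  have h8 : (pr v : ℕ) = p := (Nat.prime_dvd_prime_iff_eq (pr v).2 hp).1 h7
  unfold S6 at hv
  rw [Finset.mem_union, mem_Sp, mem_Sp] at hv
  rcases hv with h | h
  · rw [h] at h8
    have h9 : (2 : ℕ) = p := h8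
    omega
  · rw [h] at h8
    have h9 : (3 : ℕ) = p := h8
    omega

lemma log_hE (W : HeightOneSpectrum (𝓞 K) → WeierstrassCurve (𝓞 K)) (u : ℝ) :
    Real.log ‖hE W (ep u)‖ =
      ∑ v ∈ (S6 : Finset (HeightOneSpectrum (𝓞 K))), Real.log ‖elf W v (ep u + 1 / 2)‖ := by
  unfold hE
  rw [norm_prod, Real.log_prod fun v _ => norm_ne_zero_iff.2 (elf_ne W v u)]

lemma os_hE (W : HeightOneSpectrum (𝓞 K) → WeierstrassCurve (𝓞 K)) {p : ℕ} (hp : p.Prime)
    (hp5 : 5 ≤ p) : Tendsto (Os (Real.log p) fun u => Real.log ‖hE W (ep u)‖) atTop (𝓝 0) := by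
  have h1 : ∀ H, Os (Real.log p) (fun u => Real.log ‖hE W (ep u)‖) H =
      ∑ v ∈ (S6 : Finset (HeightOneSpectrum (𝓞 K))),
        Os (Real.log p) (fun u => Real.log ‖elf W v (ep u + 1 / 2)‖) H := by
    intro H
    have h2 := os_sum (S6 : Finset (HeightOneSpectrum (𝓞 K))) (l := Real.log p)
      (f := fun v u => Real.log ‖elf W v (ep u + 1 / 2)‖)
      (fun v a c => (elf_cont W v).intervalIntegrable a c) (fun _ => 1) H
    simp only [one_mul, Complex.ofReal_one] at h2
    rw [← h2]
    congr 1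
    funext u
    exact log_hE W u
  have h2 : Tendsto (fun H => ∑ v ∈ (S6 : Finset (HeightOneSpectrum (𝓞 K))),
      Os (Real.log p) (fun u => Real.log ‖elf W v (ep u + 1 / 2)‖) H) atTop (𝓝 0) := by
    have h3 := tendsto_finsetSum (S6 : Finset (HeightOneSpectrum (𝓞 K))) (fun v hv =>
      os_periodic (elf_cont W v) (P := 2 * Real.pi / Real.log (nm v)) (l := Real.log p)
        (div_pos (by positivity) (Real.log_pos (by exact_mod_cast two_le_nm v)))
        (fun u => by rw [elf_per W v u]) (ee_ne hp hp5 hv))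
    rwa [Finset.sum_const_zero] at h3
  exact h2.congr fun H => (h1 H).symm

lemma cont_hE (W : HeightOneSpectrum (𝓞 K) → WeierstrassCurve (𝓞 K)) :
    Continuous fun u : ℝ => Real.log ‖hE W (ep u)‖ := by
  simp_rw [log_hE]
  exact continuous_finsetSum _ fun v _ => elf_cont W v

end

/-- **The coefficients at the primes.** -/
theorem coef_le {ι : Type} [Fintype ι] {K : ι → Type} [∀ j, Field (K j)] [∀ j, NumberField (K j)]
    {W : ∀ j, HeightOneSpectrum (𝓞 (K j)) → WeierstrassCurve (𝓞 (K j))} {b : ι → PP → ℂ}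
    (hb : ∀ j x, ‖b j x‖ ≤ ((Module.finrank ℚ (K j) : ℝ) * 2) / (x.2 + 1 : ℕ)) {c : ι → ℝ} {κ : ℝ}
    (h : ∀ t, ∫ u in t..(t + 1), |∑ j, c j * Lg (W j) (b j) u| ≤ κ) {p : Nat.Primes}
    (hp5 : 5 ≤ (p : ℕ)) :
    ‖∑ j, (c j : ℂ) * b j (p, 0)‖ ≤ 2 * κ * (p : ℕ) := by
  have hp0 : (0 : ℝ) < ((p : ℕ) : ℝ) := by exact_mod_cast p.2.pos
  have hfr : -fr (p, 0) = Real.log ((p : ℕ) : ℝ) := by
    unfold fr
    simp
  have hi : ∀ j a e, IntervalIntegrable (Lg (W j) (b j)) volume a e :=
    fun j a e => Lg_integrable (hb j) a e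
  have key : ∀ δ : ℝ, 0 < δ → ‖∑ j, (c j : ℂ) * (b j (p, 0) * (wt 1 (p, 0) : ℂ) / 2)‖ ≤
      κ + (∑ j, |c j|) * δ := by
    intro δ hδ
    -- the choice of `X`
    obtain ⟨X, hX2, hXp, hX⟩ : ∃ X : ℕ, 2 ≤ X ∧ (p : ℕ) ≤ X ∧
        ∀ j, 64800 * ((Module.finrank ℚ (K j) : ℝ) * 2) ^ 2 / Real.log X ≤ δ ^ 2 := by
      have h1 : Tendsto (fun X : ℕ => Real.log X) atTop atTop :=
        Real.tendsto_log_atTop.comp tendsto_natCast_atTop_atTop
      have h2 : ∀ᶠ X : ℕ in atTop, ∀ j,
          64800 * ((Module.finrank ℚ (K j) : ℝ) * 2) ^ 2 / Real.log X ≤ δ ^ 2 := by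
        rw [eventually_all]
        intro j
        filter_upwards [h1.eventually_ge_atTop
          (64800 * ((Module.finrank ℚ (K j) : ℝ) * 2) ^ 2 / δ ^ 2 + 1)] with X hX
        have h3 : 0 < Real.log X := by
          refine lt_of_lt_of_le ?_ hX
          positivity
        rw [div_le_iff₀ h3]
        have h4 : 64800 * ((Module.finrank ℚ (K j) : ℝ) * 2) ^ 2 / δ ^ 2 ≤ Real.log X := by linarith
        rw [div_le_iff₀ (by positivity)] at h4
        linarith
      obtain ⟨X, h3, h4, h5⟩ := (h2.and ((eventually_ge_atTop 2).and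
        (eventually_ge_atTop (p : ℕ)))).exists
      exact ⟨X, h4, h5, h3⟩
    have hy : ((p, 0) : PP) ∈ TX X := by
      rw [mem_TX]
      unfold qq
      simpa using hXp
    -- the differences
    have hbl : ∀ j, AEMeasurable (fun u => (bl (b j) u).re - (PS (b j) X u).re) := fun j =>
      (Complex.measurable_re.comp_aemeasurable (boundary (hb j)).1).sub
        (Complex.continuous_re.comp (continuous_PS (b j) X)).aemeasurable
    have hD : ∀ j u, (bl (b j) u).re - (PS (b j) X u).re =
        Lg (W j) (b j) u - (Real.log ‖hE (W j) (ep u)‖ + (PS (b j) X u).re) := by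
      intro j u
      rw [Lg_eq]
      ring
    have iR : ∀ j a e, IntervalIntegrable (fun u => (PS (b j) X u).re) volume a e := fun j a e =>
      (Complex.continuous_re.comp (continuous_PS (b j) X)).intervalIntegrable _ _
    have iE : ∀ j a e, IntervalIntegrable (fun u => Real.log ‖hE (W j) (ep u)‖) volume a e :=
      fun j a e => (cont_hE (W j)).intervalIntegrable _ _
    have iD : ∀ j a e, IntervalIntegrable (fun u => (bl (b j) u).re - (PS (b j) X u).re)
        volume a e := by
      intro j a e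
      simp_rw [hD]
      exact (hi j a e).sub ((iE j a e).add (iR j a e))
    have bD : ∀ j t, ∫ u in t..(t + 1), |(bl (b j) u).re - (PS (b j) X u).re| ≤ δ := by
      intro j t
      have h1 := Pool.Agent.N881.RP.lint_norm (hb j) hX2 t hδ
      rw [intervalIntegral.integral_of_le (by linarith), ← integral_Icc_eq_integral_Ioc,
        integral_eq_lintegral_of_nonneg_ae (ae_of_all _ fun u => abs_nonneg _)
          ((hbl j).abs.aestronglyMeasurable.restrict)]
      refine ENNReal.toReal_le_of_le_ofReal hδ.le ?_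
      refine le_trans ?_ (h1.trans (ENNReal.ofReal_le_ofReal ?_))
      · refine lintegral_mono fun u => ENNReal.ofReal_le_ofReal ?_
        rw [← Complex.sub_re]
        exact Complex.abs_re_le_norm _
      · have h2 := hX j
        have h3 : 64800 * ((Module.finrank ℚ (K j) : ℝ) * 2) ^ 2 / Real.log X / (2 * δ) ≤
            δ ^ 2 / (2 * δ) := div_le_div_of_nonneg_right h2 (by positivity)
        have h4 : δ ^ 2 / (2 * δ) = δ / 2 := by field_simp
        linarith
    set l : ℝ := Real.log ((p : ℕ) : ℝ) with hl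
    -- the limit
    have hlim : Tendsto (fun H : ℝ => ‖∑ j, (c j : ℂ) * (Os l (fun u => Real.log ‖hE (W j) (ep u)‖) H +
        Os l (fun u => (PS (b j) X u).re) H)‖) atTop
        (𝓝 ‖∑ j, (c j : ℂ) * (0 + b j (p, 0) * (wt 1 (p, 0) : ℂ) / 2)‖) := by
      refine (tendsto_finsetSum _ fun j _ => ?_).norm
      refine Tendsto.const_mul _ ((os_hE (W j) p.2 hp5).add ?_)
      have := os_PS (b j) hy
      rwa [hfr] at this
    have hrhs : Tendsto (fun H : ℝ => κ * (H + 1) * H⁻¹ + ∑ j, |c j| * (δ * (H + 1) * H⁻¹)) atTop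
        (𝓝 (κ + ∑ j, |c j| * δ)) := by
      have h1 : Tendsto (fun H : ℝ => (H + 1) * H⁻¹) atTop (𝓝 1) := by
        have h2 : Tendsto (fun H : ℝ => 1 + H⁻¹) atTop (𝓝 (1 + 0)) :=
          tendsto_const_nhds.add (tendsto_inv_atTop_zero (𝕜 := ℝ))
        rw [add_zero] at h2
        refine h2.congr' ?_
        filter_upwards [eventually_gt_atTop 0] with H hH
        field_simp
      have h3 := h1.const_mul κ
      have h4 : Tendsto (fun H : ℝ => ∑ j, |c j| * (δ * ((H + 1) * H⁻¹))) atTop
          (𝓝 (∑ j, |c j| * (δ * 1))) :=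
        tendsto_finsetSum _ fun j _ => (h1.const_mul δ).const_mul _
      have h5 := h3.add h4
      simp only [mul_one] at h5
      refine h5.congr fun H => ?_
      congr 1
      · ring
      · exact Finset.sum_congr rfl fun j _ => by ring
    have hfin : ‖∑ j, (c j : ℂ) * (0 + b j (p, 0) * (wt 1 (p, 0) : ℂ) / 2)‖ ≤
        κ + ∑ j, |c j| * δ := by
      refine le_of_tendsto_of_tendsto hlim hrhs ?_
      filter_upwards [eventually_gt_atTop 0] with H hH
      have h1 : Os l (fun u => ∑ j, c j * Lg (W j) (b j) u) H =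
          ∑ j, (c j : ℂ) * Os l (Lg (W j) (b j)) H := os_sum Finset.univ hi c H
      have h2 : ∀ j, Os l (Lg (W j) (b j)) H = Os l (fun u => Real.log ‖hE (W j) (ep u)‖) H +
          Os l (fun u => (PS (b j) X u).re) H +
          Os l (fun u => (bl (b j) u).re - (PS (b j) X u).re) H := by
        intro j
        rw [← os_add (iE j) (iR j), ← os_add (fun a e => (iE j a e).add (iR j a e)) (iD j)]
        congr 1
        funext u
        rw [Lg_eq]
        ring
      have h3 : ∑ j, (c j : ℂ) * (Os l (fun u => Real.log ‖hE (W j) (ep u)‖) H +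
          Os l (fun u => (PS (b j) X u).re) H) =
          Os l (fun u => ∑ j, c j * Lg (W j) (b j) u) H -
          ∑ j, (c j : ℂ) * Os l (fun u => (bl (b j) u).re - (PS (b j) X u).re) H := by
        rw [h1, ← Finset.sum_sub_distrib]
        refine Finset.sum_congr rfl fun j _ => ?_
        rw [h2 j]
        ring
      rw [h3]
      refine (norm_sub_le _ _).trans (add_le_add ?_ ?_)
      · refine os_le ?_ h hH
        intro a e
        have h4 := IntervalIntegrable.sum (μ := volume) (a := a) (b := e)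
          (f := fun j u => c j * Lg (W j) (b j) u) Finset.univ
          (fun j _ => (hi j a e).const_mul (c j))
        exact h4.congr fun u _ => by simp
      · refine (norm_sum_le _ _).trans (Finset.sum_le_sum fun j _ => ?_)
        rw [norm_mul, Complex.norm_real, Real.norm_eq_abs]
        exact mul_le_mul_of_nonneg_left (os_le (iD j) (bD j) hH) (abs_nonneg _)
    simp only [zero_add] at hfin
    rwa [← Finset.sum_mul] at hfin
  have h1 : ‖∑ j, (c j : ℂ) * (b j (p, 0) * (wt 1 (p, 0) : ℂ) / 2)‖ ≤ κ := by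
    refine le_of_forall_pos_le_add fun ε hε => ?_
    have hS : 0 ≤ ∑ j, |c j| := Finset.sum_nonneg fun j _ => abs_nonneg _
    refine (key (ε / (∑ j, |c j| + 1)) (by positivity)).trans ?_
    have h2 : (∑ j, |c j|) * (ε / (∑ j, |c j| + 1)) ≤ ε := by
      rw [mul_div_assoc', div_le_iff₀ (by positivity)]
      nlinarith
    linarith
  have h2 : ∑ j, (c j : ℂ) * (b j (p, 0) * (wt 1 (p, 0) : ℂ) / 2) =
      (∑ j, (c j : ℂ) * b j (p, 0)) * ((1 / (2 * (p : ℕ)) : ℝ) : ℂ) := by
    rw [Finset.sum_mul]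
    refine Finset.sum_congr rfl fun j _ => ?_
    rw [wt_one]
    unfold qq
    push_cast
    field_simp
  rw [h2, norm_mul, Complex.norm_real, Real.norm_of_nonneg (by positivity), mul_one_div,
    div_le_iff₀ (by positivity)] at h1
  linarith

end Pool.Agent.U823.JL
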