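import Pool.Agent.U823.JL.Coef

/-!
# The coefficients at the primes: point counts
-/

set_option autoImplicit false

namespace Pool.Agent.U823.JL

open NumberField IsDedekindDomain MeasureTheory Filter Topology
open Pool.Agent.TH339.MP Pool.Agent.TH345.ET

section
variable {K : Type} [Field K] [NumberField K]

/-- the places of norm `p` -/
noncomputable def Np (p : Nat.Primes) : Finset (HeightOneSpectrum (𝓞 K)) :=
  {v ∈ (Sp p : Finset (HeightOneSpectrum (𝓞 K))) | dg v = 1}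

lemma mem_Np (p : Nat.Primes) (v : HeightOneSpectrum (𝓞 K)) : v ∈ Np p ↔ nm v = p := by
  unfold Np
  rw [Finset.mem_filter, mem_Sp, nm_eq]
  constructor
  · rintro ⟨h1, h2⟩
    rw [h2, pow_one, h1]
  · intro h
    have h1 := (Nat.Prime.pow_eq_iff p.2).1 h
    exact ⟨Subtype.ext h1.1, h1.2⟩

lemma not_S6 {p : Nat.Primes} (hp : 5 ≤ (p : ℕ)) {v : HeightOneSpectrum (𝓞 K)}
    (hv : v ∈ (Sp p : Finset (HeightOneSpectrum (𝓞 K)))) :
    v ∉ (S6 : Finset (HeightOneSpectrum (𝓞 K))) := by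
  classical
  intro h
  rw [mem_Sp] at hv
  unfold S6 at h
  rw [Finset.mem_union, mem_Sp, mem_Sp] at h
  rcases h with h | h
  · rw [hv] at h
    have : (p : ℕ) = 2 := congrArg Subtype.val h
    omega
  · rw [hv] at h
    have : (p : ℕ) = 3 := congrArg Subtype.val h
    omega

lemma beta_sum {q : ℕ} (hq : 2 ≤ q) {a : ℝ} {e : ℂ} {β : Fin 2 → ℂ}
    (h : ∀ s : ℂ, lfac q a e s = ∏ j, (1 - β j * (q : ℂ) ^ (-(s - 1 / 2)))⁻¹) :
    β 0 + β 1 = (a : ℂ) * (((Real.sqrt q)⁻¹ : ℝ) : ℂ) := by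
  have hq0 : (q : ℂ) ≠ 0 := Nat.cast_ne_zero.2 (by omega)
  have hqr : (0 : ℝ) < q := by exact_mod_cast (by omega : 0 < q)
  set r : ℂ := (((Real.sqrt q)⁻¹ : ℝ) : ℂ) with hr
  have hr2 : r ^ 2 = (q : ℂ)⁻¹ := by
    rw [hr, ← Complex.ofReal_pow, inv_pow, Real.sq_sqrt hqr.le]
    push_cast
    rfl
  have hrz : (q : ℂ) ^ (-(1 / 2) : ℂ) = r := by
    rw [hr, Real.sqrt_eq_rpow, ← Real.rpow_neg hqr.le, Complex.ofReal_cpow hqr.le]
    push_cast
    rfl
  have key : ∀ s : ℂ, 1 - (a : ℂ) * (r * (q : ℂ) ^ (-(s - 1 / 2))) +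
      e * (r * (q : ℂ) ^ (-(s - 1 / 2))) ^ 2 =
      (1 - β 0 * (q : ℂ) ^ (-(s - 1 / 2))) * (1 - β 1 * (q : ℂ) ^ (-(s - 1 / 2))) := by
    intro s
    have h1 := h s
    rw [Fin.prod_univ_two, ← mul_inv] at h1
    unfold lfac at h1
    have h2 := inv_injective h1
    have h3 : (q : ℂ) ^ (-s) = r * (q : ℂ) ^ (-(s - 1 / 2)) := by
      rw [← hrz, ← Complex.cpow_add _ _ hq0]
      congr 1
      ring
    rw [cpow_two q (by omega), h3] at h2
    exact h2
  have k1 := key (1 / 2)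
  have k2 := key (3 / 2)
  have e1 : (q : ℂ) ^ (-((1 / 2 : ℂ) - 1 / 2)) = 1 := by
    rw [sub_self, neg_zero, Complex.cpow_zero]
  have e2 : (q : ℂ) ^ (-((3 / 2 : ℂ) - 1 / 2)) = (q : ℂ)⁻¹ := by
    rw [show -((3 / 2 : ℂ) - 1 / 2) = -1 by norm_num, Complex.cpow_neg_one]
  rw [e1] at k1
  rw [e2] at k2
  have hq1 : (q : ℂ) - 1 ≠ 0 := by
    intro h0
    have h1 : (q : ℂ) = 1 := sub_eq_zero.1 h0
    have h2 : q = 1 := by exact_mod_cast h1
    omega
  -- `S - A = P - E` and `S - A = (P - E) / q`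
  have a1 : (β 0 + β 1) - a * r = β 0 * β 1 - e * r ^ 2 := by linear_combination k1
  have a2 : ((β 0 + β 1) - a * r) * q = β 0 * β 1 - e * r ^ 2 := by
    have h3 : ((β 0 + β 1) - a * r) * (q : ℂ)⁻¹ = (β 0 * β 1 - e * r ^ 2) * (q : ℂ)⁻¹ ^ 2 := by
      linear_combination k2
    have h4 := congrArg (fun z => z * (q : ℂ) ^ 2) h3
    have e3 : ((β 0 + β 1) - a * r) * (q : ℂ)⁻¹ * (q : ℂ) ^ 2 = ((β 0 + β 1) - a * r) * q := by
      field_simp
    have e4 : (β 0 * β 1 - e * r ^ 2) * (q : ℂ)⁻¹ ^ 2 * (q : ℂ) ^ 2 = β 0 * β 1 - e * r ^ 2 := by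
      field_simp
    rwa [e3, e4] at h4
  have a3 : ((β 0 + β 1) - a * r) * ((q : ℂ) - 1) = 0 := by linear_combination a2 - a1
  rcases mul_eq_zero.1 a3 with h5 | h5
  · exact sub_eq_zero.1 h5
  · exact absurd h5 hq1

/-- the product formula with explicit coefficients at the primes -/
theorem elf_hasProd_expl (W : HeightOneSpectrum (𝓞 K) → WeierstrassCurve (𝓞 K)) :
    ∃ b : PP → ℂ, (∀ x, ‖b x‖ ≤ ((Module.finrank ℚ K : ℝ) * 2) / (x.2 + 1 : ℕ)) ∧
      (∀ s : ℂ, 1 < s.re →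
        HasProd (fun v => elf W v (s + 1 / 2)) (hE W s * Complex.exp (FF b s))) ∧
      ∀ p : Nat.Primes, 5 ≤ (p : ℕ) →
        b (p, 0) = (((∑ v ∈ (Np p : Finset (HeightOneSpectrum (𝓞 K))), av W v) *
          (Real.sqrt (p : ℕ))⁻¹ : ℝ) : ℂ) := by
  classical
  obtain ⟨β, h1, h2⟩ := exists_beta W
  set β' : HeightOneSpectrum (𝓞 K) → Fin 2 → ℂ := fun v j => if v ∈ S6 then 0 else β v j with hβ'
  have hb' : ∀ v j, ‖β' v j‖ ≤ 1 := by
    intro v j
    simp only [hβ']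
    split_ifs
    · simp
    · exact h1 v j
  refine ⟨bb β', fun x => by simpa using norm_bb hb' x, fun s hs => ?_, fun p hp => ?_⟩
  · have h3 := hasProd_L hb' hs
    have h4 : HasProd (fun v => if v ∈ (S6 : Finset (HeightOneSpectrum (𝓞 K))) then
        elf W v (s + 1 / 2) else 1) (hE W s) := by
      have h5 := hasProd_prod_of_ne_finset_one (L := SummationFilter.unconditional _)
        (s := (S6 : Finset (HeightOneSpectrum (𝓞 K))))
        (f := fun v => if v ∈ (S6 : Finset (HeightOneSpectrum (𝓞 K))) then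
          elf W v (s + 1 / 2) else 1)
        (fun v hv => if_neg hv)
      have h6 : ∏ v ∈ (S6 : Finset (HeightOneSpectrum (𝓞 K))),
          (if v ∈ (S6 : Finset (HeightOneSpectrum (𝓞 K))) then elf W v (s + 1 / 2) else 1) =
          hE W s :=
        Finset.prod_congr rfl fun v hv => if_pos hv
      rwa [h6] at h5
    have h5 := h4.mul h3
    convert h5 using 1
    funext v
    by_cases hv : v ∈ (S6 : Finset (HeightOneSpectrum (𝓞 K)))
    · simp only [hβ', if_pos hv]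
      simp
    · simp only [hβ', if_neg hv]
      rw [h2 v hv, one_mul]
      refine Finset.prod_congr rfl fun j _ => ?_
      congr 4
      ring
  · unfold bb
    simp only [zero_add, Nat.dvd_one]
    rw [← Finset.sum_filter]
    have e0 : ({v ∈ (Sp p : Finset (HeightOneSpectrum (𝓞 K))) | dg v = 1}) = Np p := rfl
    rw [e0, Finset.sum_mul, Complex.ofReal_sum]
    refine Finset.sum_congr rfl fun v hv => ?_
    have hv' := hv
    unfold Np at hv'
    rw [Finset.mem_filter] at hv'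
    have hd := hv'.2
    have hn6 := not_S6 hp hv'.1
    have hnm : nm v = p := (mem_Np p v).1 hv
    have h3 := beta_sum (two_le_nm v) (a := av W v)
      (e := if (W v).Δ ∈ v.asIdeal then 0 else (nm v : ℂ)) (β := β v) (fun s => h2 v hn6 s)
    rw [hd]
    simp only [Nat.div_one, pow_one, Nat.cast_one, div_one, mul_one, hβ', if_neg hn6]
    rw [Fin.sum_univ_two, h3, hnm]
    push_cast
    rfl

end

end Pool.Agent.U823.JL
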