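import Pool.Agent.U823.UA.Wt

/-!
# Families of almost periodic functions: joint means and windows
-/

set_option autoImplicit false

namespace Pool.Agent.U823.JL

open MeasureTheory Filter Topology Set
open Pool.Agent.U823.UA

variable {ι : Type} [Fintype ι] {G : ι → ℝ → ℝ} {c : ι → ℝ} {F : (ι → ℝ) → ℝ}

lemma lip_cont (hF : ∀ x y, |F x - F y| ≤ ∑ j, c j * |x j - y j|) : Continuous F := by
  rw [continuous_iff_continuousAt]
  intro y
  rw [ContinuousAt, tendsto_iff_dist_tendsto_zero]
  have h1 : Tendsto (fun x : ι → ℝ => ∑ j, c j * |x j - y j|) (𝓝 y)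
      (𝓝 (∑ j, c j * |y j - y j|)) := by
    have : Continuous fun x : ι → ℝ => ∑ j, c j * |x j - y j| := by fun_prop
    exact this.tendsto y
  simp only [sub_self, abs_zero, mul_zero, Finset.sum_const_zero] at h1
  refine squeeze_zero (fun _ => dist_nonneg) (fun x => ?_) h1
  rw [Real.dist_eq]
  exact hF x y

/-- the values are integrable -/
lemma fam_int (hm : ∀ j, AEMeasurable (G j)) (hi : ∀ j a e, IntervalIntegrable (G j) volume a e)
    (hF : ∀ x y, |F x - F y| ≤ ∑ j, c j * |x j - y j|) (a e : ℝ) :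
    IntervalIntegrable (fun u => F (fun j => G j u) - F 0) volume a e := by
  have hS : IntervalIntegrable (fun u => ∑ j, c j * |G j u|) volume a e := by
    have h1 := IntervalIntegrable.sum (μ := volume) (a := a) (b := e) (f := fun j u => c j * |G j u|)
      Finset.univ (fun j _ => ((hi j a e).abs.const_mul _))
    exact h1.congr fun u _ => by simp
  refine hS.mono_fun ?_ ?_
  · have h1 : AEMeasurable (fun u => fun j => G j u) volume := aemeasurable_pi_iff.2 hm
    exact (((lip_cont hF).measurable.comp_aemeasurable h1).sub_const _).aestronglyMeasurable.restrict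
  · filter_upwards with u
    have h1 := hF (fun j => G j u) 0
    simp only [Pi.zero_apply, sub_zero] at h1
    rw [Real.norm_eq_abs, Real.norm_eq_abs]
    exact h1.trans (le_abs_self _)

lemma fam_int' (hm : ∀ j, AEMeasurable (G j)) (hi : ∀ j a e, IntervalIntegrable (G j) volume a e)
    (hF : ∀ x y, |F x - F y| ≤ ∑ j, c j * |x j - y j|) (a e : ℝ) :
    IntervalIntegrable (fun u => F (fun j => G j u)) volume a e := by
  have := (fam_int hm hi hF a e).add (intervalIntegrable_const (c := F 0))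
  simpa using this

/-- almost periods of the values -/
lemma fam_ap (hm : ∀ j, AEMeasurable (G j)) (hi : ∀ j a e, IntervalIntegrable (G j) volume a e)
    (hc0 : ∀ j, 0 ≤ c j) (hc1 : ∑ j, c j ≤ 1)
    (hF : ∀ x y, |F x - F y| ≤ ∑ j, c j * |x j - y j|) {τ ε : ℝ} (hε : 0 ≤ ε)
    (h : ∀ j t, ∫ u in t..(t + 1), |G j (u + τ) - G j u| ≤ ε) (t : ℝ) :
    ∫ u in t..(t + 1), |F (fun j => G j (u + τ)) - F (fun j => G j u)| ≤ ε := by
  have hiτ : ∀ j, IntervalIntegrable (fun u => G j (u + τ)) volume t (t + 1) := by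
    intro j
    have := (hi j (t + τ) (t + 1 + τ)).comp_add_right τ
    simpa using this
  have i1 : IntervalIntegrable (fun u => F (fun j => G j (u + τ))) volume t (t + 1) := by
    have := (fam_int' hm hi hF (t + τ) (t + 1 + τ)).comp_add_right τ
    simpa using this
  have i2 := fam_int' hm hi hF t (t + 1)
  have i3 : ∀ j, IntervalIntegrable (fun u => c j * |G j (u + τ) - G j u|) volume t (t + 1) :=
    fun j => (((hiτ j).sub (hi j _ _)).abs.const_mul _)
  have i4 : IntervalIntegrable (fun u => ∑ j, c j * |G j (u + τ) - G j u|) volume t (t + 1) := by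
    have h1 := IntervalIntegrable.sum (μ := volume) (a := t) (b := t + 1)
      (f := fun j u => c j * |G j (u + τ) - G j u|) Finset.univ (fun j _ => i3 j)
    exact h1.congr fun u _ => by simp
  calc ∫ u in t..(t + 1), |F (fun j => G j (u + τ)) - F (fun j => G j u)|
      ≤ ∫ u in t..(t + 1), ∑ j, c j * |G j (u + τ) - G j u| :=
        intervalIntegral.integral_mono_on (by linarith) (i1.sub i2).abs i4 fun u _ => hF _ _
    _ = ∑ j, c j * ∫ u in t..(t + 1), |G j (u + τ) - G j u| := by
        rw [intervalIntegral.integral_finsetSum fun j _ => i3 j]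
        exact Finset.sum_congr rfl fun j _ => intervalIntegral.integral_const_mul _ _
    _ ≤ ∑ j, c j * ε := Finset.sum_le_sum fun j _ => mul_le_mul_of_nonneg_left (h j t) (hc0 j)
    _ = (∑ j, c j) * ε := by rw [Finset.sum_mul]
    _ ≤ 1 * ε := mul_le_mul_of_nonneg_right hc1 hε
    _ = ε := one_mul ε

/-- **Joint means.** -/
theorem fam_mean (hm : ∀ j, AEMeasurable (G j))
    (hi : ∀ j a e, IntervalIntegrable (G j) volume a e)
    {C : ℝ} (hC0 : 0 ≤ C) (hC : ∀ j t, ∫ u in t..(t + 1), |G j u| ≤ C)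
    (hc0 : ∀ j, 0 ≤ c j) (hc1 : ∑ j, c j ≤ 1)
    (Λ : ℝ → ℝ) (hΛ : ∀ ε, 0 < ε → 0 ≤ Λ ε)
    (hap : ∀ ε, 0 < ε → ∀ a : ℝ, ∃ τ ∈ Icc a (a + Λ ε),
      ∀ j t, ∫ u in t..(t + 1), |G j (u + τ) - G j u| ≤ ε)
    (hF : ∀ x y, |F x - F y| ≤ ∑ j, c j * |x j - y j|) :
    ∃ μ : ℝ, ∀ δ, 0 < δ → ∀ t H : ℝ, 1 ≤ H → 16 * (C * (Λ (δ / 16) + 1)) ≤ δ * H →
      |H⁻¹ * (∫ u in t..(t + H), F (fun j => G j u)) - μ| ≤ δ := by
  have hb : ∀ t, ∫ u in t..(t + 1), |F (fun j => G j u) - F 0| ≤ C := by
    intro t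
    have i3 : ∀ j, IntervalIntegrable (fun u => c j * |G j u|) volume t (t + 1) :=
      fun j => (hi j _ _).abs.const_mul _
    have i4 : IntervalIntegrable (fun u => ∑ j, c j * |G j u|) volume t (t + 1) := by
      have h1 := IntervalIntegrable.sum (μ := volume) (a := t) (b := t + 1)
        (f := fun j u => c j * |G j u|) Finset.univ (fun j _ => i3 j)
      exact h1.congr fun u _ => by simp
    calc ∫ u in t..(t + 1), |F (fun j => G j u) - F 0|
        ≤ ∫ u in t..(t + 1), ∑ j, c j * |G j u| := by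
          refine intervalIntegral.integral_mono_on (by linarith) (fam_int hm hi hF _ _).abs i4
            fun u _ => ?_
          have h1 := hF (fun j => G j u) 0
          simpa only [Pi.zero_apply, sub_zero] using h1
      _ = ∑ j, c j * ∫ u in t..(t + 1), |G j u| := by
          rw [intervalIntegral.integral_finsetSum fun j _ => i3 j]
          exact Finset.sum_congr rfl fun j _ => intervalIntegral.integral_const_mul _ _
      _ ≤ ∑ j, c j * C := Finset.sum_le_sum fun j _ => mul_le_mul_of_nonneg_left (hC j t) (hc0 j)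
      _ = (∑ j, c j) * C := by rw [Finset.sum_mul]
      _ ≤ 1 * C := mul_le_mul_of_nonneg_right hc1 hC0
      _ = C := one_mul C
  obtain ⟨μ, hμ⟩ := mean_exists (fam_int hm hi hF) hb Λ hΛ (by
    intro ε hε a
    obtain ⟨τ, hτ, h⟩ := hap ε hε a
    refine ⟨τ, hτ, fun t => ?_⟩
    refine le_trans (le_of_eq ?_) (fam_ap hm hi hc0 hc1 hF hε.le h t)
    congr 1
    funext u
    congr 1
    ring)
  refine ⟨μ + F 0, fun δ hδ t H hH hH2 => ?_⟩
  have h1 := hμ δ hδ t H hH hH2
  rw [intervalIntegral.integral_sub (fam_int' hm hi hF _ _) intervalIntegrable_const,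
    intervalIntegral.integral_const] at h1
  have e1 : H⁻¹ * ((∫ u in t..(t + H), F (fun j => G j u)) - (t + H - t) • F 0) - μ =
      H⁻¹ * (∫ u in t..(t + H), F (fun j => G j u)) - (μ + F 0) := by
    rw [smul_eq_mul]
    field_simp
    ring
  rwa [e1] at h1

/-- **One window.** -/
theorem fam_window (hm : ∀ j, AEMeasurable (G j))
    (hi : ∀ j a e, IntervalIntegrable (G j) volume a e)
    (hc0 : ∀ j, 0 ≤ c j) (hc1 : ∑ j, c j ≤ 1)
    (hF : ∀ x y, |F x - F y| ≤ ∑ j, c j * |x j - y j|) {Λ ε : ℝ} (hε : 0 ≤ ε)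
    (hap : ∀ a : ℝ, ∃ τ ∈ Icc a (a + Λ),
      ∀ j t, ∫ u in t..(t + 1), |G j (u + τ) - G j u| ≤ ε) {κ a : ℝ}
    (h : ∀ x ∈ Icc a (a + Λ), ∫ u in x..(x + 1), |F (fun j => G j u)| ≤ κ) (t : ℝ) :
    ∫ u in t..(t + 1), |F (fun j => G j u)| ≤ κ + ε := by
  obtain ⟨τ, hτ, h1⟩ := hap (a - t)
  have h2 := fam_ap hm hi hc0 hc1 hF hε h1 t
  have h3 := h (t + τ) ⟨by linarith [hτ.1], by linarith [hτ.2]⟩
  have i1 : IntervalIntegrable (fun u => F (fun j => G j (u + τ))) volume t (t + 1) := by
    have := (fam_int' hm hi hF (t + τ) (t + 1 + τ)).comp_add_right τ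
    simpa using this
  have i2 := fam_int' hm hi hF t (t + 1)
  have e1 : ∫ u in t..(t + 1), |F (fun j => G j (u + τ))| =
      ∫ u in (t + τ)..(t + τ + 1), |F (fun j => G j u)| := by
    rw [show t + τ + 1 = t + 1 + τ by ring]
    exact intervalIntegral.integral_comp_add_right (fun u => |F (fun j => G j u)|) τ
  have h4 : ∫ u in t..(t + 1), |F (fun j => G j u)| ≤
      ∫ u in t..(t + 1), (|F (fun j => G j (u + τ))| +
        |F (fun j => G j (u + τ)) - F (fun j => G j u)|) := by
    refine intervalIntegral.integral_mono_on (by linarith) i2.abs (i1.abs.add (i1.sub i2).abs)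
      fun u _ => ?_
    have := abs_sub_abs_le_abs_sub (F (fun j => G j u)) (F (fun j => G j (u + τ)))
    rw [abs_sub_comm (F (fun j => G j u))] at this
    linarith
  rw [intervalIntegral.integral_add i1.abs (i1.sub i2).abs, e1] at h4
  linarith

end Pool.Agent.U823.JL
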