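import Pool.Agent.U823.JL.Ap

/-!
# Fourier coefficients
-/

set_option autoImplicit false

namespace Pool.Agent.U823.JL

open NumberField IsDedekindDomain MeasureTheory Filter Topology Set
open Pool.Agent.TH339.MP Pool.Agent.TH345.ET Pool.Agent.U823.EW Pool.Agent.U823.UA

/-- the oscillation integral -/
noncomputable def Os (l : ℝ) (f : ℝ → ℝ) (H : ℝ) : ℂ := (H : ℂ)⁻¹ * ∫ u in (0 : ℝ)..H, (f u : ℂ) * ee l u

lemma cont_ee (l : ℝ) : Continuous (ee l) := by
  unfold ee
  fun_prop

lemma os_ee {l : ℝ} (hl : l ≠ 0) :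
    Tendsto (fun H : ℝ => (H : ℂ)⁻¹ * ∫ u in (0 : ℝ)..H, ee l u) atTop (𝓝 0) := by
  rw [tendsto_zero_iff_norm_tendsto_zero]
  have h1 : Tendsto (fun H : ℝ => 2 / |l| * H⁻¹) atTop (𝓝 0) := by
    have := (tendsto_inv_atTop_zero (𝕜 := ℝ)).const_mul (2 / |l|)
    simpa using this
  refine squeeze_zero' (Eventually.of_forall fun _ => norm_nonneg _) ?_ h1
  filter_upwards [eventually_gt_atTop 0] with H hH
  have h2 := Pool.Agent.N881.RP.integral_ee hl 0 H
  have h3 : ‖∫ u in (0 : ℝ)..H, ee l u‖ ≤ 2 / |l| := by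
    have h4 := congrArg norm h2
    rw [norm_mul, Complex.norm_I, one_mul, norm_div, Complex.norm_real, Real.norm_eq_abs] at h4
    rw [h4]
    refine div_le_div_of_nonneg_right ?_ (abs_nonneg l)
    refine (norm_sub_le _ _).trans ?_
    rw [norm_ee, norm_ee]
    norm_num
  rw [norm_mul, norm_inv, Complex.norm_real, Real.norm_of_nonneg hH.le, mul_comm]
  exact mul_le_mul_of_nonneg_right h3 (by positivity)

/-- a periodic function whose period is not a period of the exponential -/
lemma os_periodic {f : ℝ → ℝ} (hf : Continuous f) {P l : ℝ} (hP : 0 < P)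
    (hper : ∀ u, f (u + P) = f u) (hl : ee l P ≠ 1) : Tendsto (Os l f) atTop (𝓝 0) := by
  set g : ℝ → ℂ := fun u => (f u : ℂ) * ee l u with hg
  have hgc : Continuous g := (Complex.continuous_ofReal.comp hf).mul (cont_ee l)
  have hgi : ∀ a c, IntervalIntegrable g volume a c := fun a c => hgc.intervalIntegrable _ _
  set z := ee l P with hz
  have hz1 : ‖z‖ = 1 := norm_ee _ _
  have hgP : ∀ u, g (u + P) = z * g u := by
    intro u
    simp only [g]
    rw [hper, ee_add]
    ring
  set J : ℝ → ℂ := fun H => ∫ u in (0 : ℝ)..H, g u with hJ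
  have hJc : Continuous J := intervalIntegral.continuous_primitive hgi 0
  have h1z : 1 - z ≠ 0 := sub_ne_zero.2 (Ne.symm hl)
  set w := J P / (1 - z) with hw
  have hw' : J P = (1 - z) * w := by
    rw [hw]
    field_simp
  have hJP : ∀ H, J (H + P) - w = z * (J H - w) := by
    intro H
    have h1 : J (H + P) = J P + ∫ u in P..(H + P), g u :=
      (intervalIntegral.integral_add_adjacent_intervals (hgi _ _) (hgi _ _)).symm
    have h2 : ∫ u in P..(H + P), g u = z * J H := by
      have h3 : ∫ u in (0 : ℝ)..H, g (u + P) = ∫ u in (0 + P)..(H + P), g u :=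
        intervalIntegral.integral_comp_add_right g P
      rw [zero_add] at h3
      rw [← h3]
      simp_rw [hgP]
      exact intervalIntegral.integral_const_mul _ _
    rw [h1, h2, hw']
    ring
  have hper2 : Function.Periodic (fun H => ‖J H - w‖) P := by
    intro H
    simp only
    rw [hJP, norm_mul, hz1, one_mul]
  obtain ⟨C, hC⟩ := (isCompact_Icc (a := (0 : ℝ)) (b := P)).exists_bound_of_continuousOn
    (f := fun H => J H - w) ((hJc.sub continuous_const).continuousOn)
  have hb : ∀ H, ‖J H - w‖ ≤ C := by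
    intro H
    obtain ⟨y, hy, hy2⟩ := hper2.exists_mem_Ico₀ hP H
    have hy3 : ‖J H - w‖ = ‖J y - w‖ := hy2
    rw [hy3]
    exact hC y ⟨hy.1, hy.2.le⟩
  rw [tendsto_zero_iff_norm_tendsto_zero]
  have h1 : Tendsto (fun H : ℝ => (C + ‖w‖) * H⁻¹) atTop (𝓝 0) := by
    have := (tendsto_inv_atTop_zero (𝕜 := ℝ)).const_mul (C + ‖w‖)
    simpa using this
  refine squeeze_zero' (Eventually.of_forall fun _ => norm_nonneg _) ?_ h1
  filter_upwards [eventually_gt_atTop 0] with H hH
  have h2 : ‖J H‖ ≤ C + ‖w‖ := by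
    have e1 : J H = (J H - w) + w := by ring
    rw [e1]
    exact (norm_add_le _ _).trans (add_le_add (hb H) le_rfl)
  unfold Os
  rw [norm_mul, norm_inv, Complex.norm_real, Real.norm_of_nonneg hH.le, mul_comm]
  exact mul_le_mul_of_nonneg_right h2 (by positivity)

lemma os_add {l : ℝ} {f g : ℝ → ℝ} (hf : ∀ a c, IntervalIntegrable f volume a c)
    (hg : ∀ a c, IntervalIntegrable g volume a c) (H : ℝ) :
    Os l (fun u => f u + g u) H = Os l f H + Os l g H := by
  unfold Os
  have h1 : ∀ {f : ℝ → ℝ}, (∀ a c, IntervalIntegrable f volume a c) →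
      IntervalIntegrable (fun u => (f u : ℂ) * ee l u) volume 0 H := by
    intro f hf
    have : IntervalIntegrable (fun u => (f u : ℂ)) volume 0 H :=
      ⟨(hf 0 H).1.ofReal, (hf 0 H).2.ofReal⟩
    exact this.mul_continuousOn (cont_ee l).continuousOn
  rw [← mul_add, ← intervalIntegral.integral_add (h1 hf) (h1 hg)]
  congr 1
  refine intervalIntegral.integral_congr fun u _ => ?_
  simp only
  push_cast
  ring

lemma os_sum {ι : Type*} (s : Finset ι) {l : ℝ} {f : ι → ℝ → ℝ}
    (hf : ∀ j a c, IntervalIntegrable (f j) volume a c) (c : ι → ℝ) (H : ℝ) :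
    Os l (fun u => ∑ j ∈ s, c j * f j u) H = ∑ j ∈ s, (c j : ℂ) * Os l (f j) H := by
  unfold Os
  have h1 : ∀ j, IntervalIntegrable (fun u => (c j : ℂ) * ((f j u : ℂ) * ee l u)) volume 0 H := by
    intro j
    have : IntervalIntegrable (fun u => (f j u : ℂ)) volume 0 H :=
      ⟨(hf j 0 H).1.ofReal, (hf j 0 H).2.ofReal⟩
    exact (this.mul_continuousOn (cont_ee l).continuousOn).const_mul _
  have h2 : ∀ u : ℝ, (((∑ j ∈ s, c j * f j u : ℝ)) : ℂ) * ee l u =
      ∑ j ∈ s, (c j : ℂ) * ((f j u : ℂ) * ee l u) := by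
    intro u
    push_cast
    rw [Finset.sum_mul]
    exact Finset.sum_congr rfl fun j _ => by ring
  simp_rw [h2]
  rw [intervalIntegral.integral_finsetSum fun j _ => h1 j, Finset.mul_sum]
  refine Finset.sum_congr rfl fun j _ => ?_
  rw [intervalIntegral.integral_const_mul]
  ring

lemma os_le {l : ℝ} {f : ℝ → ℝ} (hf : ∀ a c, IntervalIntegrable f volume a c) {κ : ℝ}
    (h : ∀ t, ∫ u in t..(t + 1), |f u| ≤ κ) {H : ℝ} (hH : 0 < H) :
    ‖Os l f H‖ ≤ κ * (H + 1) * H⁻¹ := by
  unfold Os
  rw [norm_mul, norm_inv, Complex.norm_real, Real.norm_of_nonneg hH.le, mul_comm]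
  refine mul_le_mul_of_nonneg_right ?_ (by positivity)
  refine (intervalIntegral.norm_integral_le_integral_norm hH.le).trans ?_
  have h1 : ∀ u : ℝ, ‖(f u : ℂ) * ee l u‖ = |f u| := by
    intro u
    rw [norm_mul, norm_ee, mul_one, Complex.norm_real, Real.norm_eq_abs]
  simp_rw [h1]
  have h2 := int_le (fun a c => (hf a c).abs) (fun u => abs_nonneg (f u)) h 0 hH.le
  rwa [zero_add] at h2

lemma fr_injective : Function.Injective fr := by
  intro x y h
  rw [fr_eq, fr_eq, neg_inj] at h
  have hx : (0 : ℝ) < qq x := by exact_mod_cast (by have := two_le_qq x; omega : 0 < qq x)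
  have hy : (0 : ℝ) < qq y := by exact_mod_cast (by have := two_le_qq y; omega : 0 < qq y)
  have h1 := Real.log_injOn_pos (Set.mem_Ioi.2 hx) (Set.mem_Ioi.2 hy) h
  exact qq_injective (by exact_mod_cast h1)

/-- the coefficients of the partial sums -/
lemma os_PS (b : PP → ℂ) {X : ℕ} {y : PP} (hy : y ∈ TX X) :
    Tendsto (Os (-fr y) fun u => (PS b X u).re) atTop (𝓝 (b y * (wt 1 y : ℂ) / 2)) := by
  have key : ∀ (x : PP), Tendsto (fun H : ℝ => (H : ℂ)⁻¹ * ∫ u in (0 : ℝ)..H,
      (b x * (wt 1 x : ℂ) / 2 * ee (fr x - fr y) u +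
        (starRingEnd ℂ) (b x * (wt 1 x : ℂ)) / 2 * ee (-fr x - fr y) u)) atTop
      (𝓝 (if x = y then b y * (wt 1 y : ℂ) / 2 else 0)) := by
    intro x
    have h1 : ∀ H : ℝ, (H : ℂ)⁻¹ * ∫ u in (0 : ℝ)..H,
      (b x * (wt 1 x : ℂ) / 2 * ee (fr x - fr y) u +
        (starRingEnd ℂ) (b x * (wt 1 x : ℂ)) / 2 * ee (-fr x - fr y) u) =
        b x * (wt 1 x : ℂ) / 2 * ((H : ℂ)⁻¹ * ∫ u in (0 : ℝ)..H, ee (fr x - fr y) u) +
        (starRingEnd ℂ) (b x * (wt 1 x : ℂ)) / 2 *
          ((H : ℂ)⁻¹ * ∫ u in (0 : ℝ)..H, ee (-fr x - fr y) u) := by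
      intro H
      have i1 : IntervalIntegrable (fun u => b x * (wt 1 x : ℂ) / 2 * ee (fr x - fr y) u) volume 0 H :=
        (continuous_const.mul (cont_ee _)).intervalIntegrable _ _
      have i2 : IntervalIntegrable (fun u => (starRingEnd ℂ) (b x * (wt 1 x : ℂ)) / 2 *
          ee (-fr x - fr y) u) volume 0 H :=
        (continuous_const.mul (cont_ee _)).intervalIntegrable _ _
      rw [intervalIntegral.integral_add i1 i2,
        intervalIntegral.integral_const_mul, intervalIntegral.integral_const_mul]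
      ring
    simp_rw [h1]
    have h2 : -fr x - fr y ≠ 0 := by
      have := Pool.Agent.N881.RP.fr_neg x
      have := Pool.Agent.N881.RP.fr_neg y
      linarith
    have h3 := (os_ee h2).const_mul ((starRingEnd ℂ) (b x * (wt 1 x : ℂ)) / 2)
    by_cases hxy : x = y
    · subst hxy
      rw [if_pos rfl]
      have h4 : Tendsto (fun H : ℝ => (H : ℂ)⁻¹ * ∫ u in (0 : ℝ)..H, ee (fr x - fr x) u) atTop
          (𝓝 1) := by
        refine tendsto_const_nhds.congr' ?_
        filter_upwards [eventually_gt_atTop 0] with H hH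
        rw [sub_self]
        simp_rw [ee_zero_left]
        rw [intervalIntegral.integral_const]
        have : (H : ℂ) ≠ 0 := by exact_mod_cast hH.ne'
        simp [this]
      have h5 := (h4.const_mul (b x * (wt 1 x : ℂ) / 2)).add h3
      simpa using h5
    · rw [if_neg hxy]
      have h4 : fr x - fr y ≠ 0 := fun h => hxy (fr_injective (sub_eq_zero.1 h))
      have h5 := ((os_ee h4).const_mul (b x * (wt 1 x : ℂ) / 2)).add h3
      simpa using h5
  have h6 := tendsto_finsetSum (TX X) fun x _ => key x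
  rw [Finset.sum_ite_eq' (TX X) y (fun _ => b y * (wt 1 y : ℂ) / 2), if_pos hy] at h6
  refine h6.congr fun H => ?_
  unfold Os
  rw [← Finset.mul_sum, ← intervalIntegral.integral_finsetSum]
  · congr 1
    refine intervalIntegral.integral_congr fun u _ => ?_
    simp only
    unfold PS
    rw [Complex.re_eq_add_conj, map_sum, ← Finset.sum_add_distrib, Finset.sum_div, Finset.sum_mul]
    refine Finset.sum_congr rfl fun x _ => ?_
    rw [sub_eq_add_neg, sub_eq_add_neg, ee_add_left, ee_add_left, map_mul _ (b x * _) (ee _ _),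
      ← ee_neg_left]
    ring
  · intro x _
    exact (((continuous_const.mul (cont_ee _)).add
      (continuous_const.mul (cont_ee _))).intervalIntegrable _ _)

end Pool.Agent.U823.JL
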