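import Pool.Agent.U823.JL.Fam

/-!
# Families of almost periodic functions: products of powers
-/

set_option autoImplicit false

namespace Pool.Agent.U823.JL

open MeasureTheory Filter Topology Set
open Pool.Agent.U823.UA

variable {ι : Type} [Fintype ι] {G : ι → ℝ → ℝ}

/-- convexity -/
lemma exp_sum_le {c : ι → ℝ} {R : ℝ} (hR : 0 < R) (hc : R * ∑ j, |c j| ≤ 1) (x : ι → ℝ) :
    Real.exp (∑ j, c j * x j) ≤
      (∑ j, R * |c j| * (Real.exp (1 / R * x j) + Real.exp (-(1 / R) * x j))) + 1 := by
  have hw0 : ∀ j, 0 ≤ R * |c j| := fun j => by positivity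
  set w : Option ι → ℝ := fun o => o.elim (1 - ∑ j, R * |c j|) (fun j => R * |c j|) with hw
  set p : Option ι → ℝ := fun o => o.elim 0 (fun j => (if 0 ≤ c j then 1 / R else -(1 / R)) * x j)
    with hp
  have h0 : ∀ o ∈ (Finset.univ : Finset (Option ι)), 0 ≤ w o := by
    intro o _
    cases o with
    | none =>
      simp only [w, Option.elim]
      rw [← Finset.mul_sum]
      linarith
    | some j => exact hw0 j
  have h1 : ∑ o, w o = 1 := by
    rw [Fintype.sum_option]
    simp [w]
  have h2 := convexOn_exp.map_sum_le (t := Finset.univ) (w := w) (p := p) h0 h1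
    (fun _ _ => Set.mem_univ _)
  simp only [Fintype.sum_option, smul_eq_mul] at h2
  have e1 : w none * p none + ∑ j, w (some j) * p (some j) = ∑ j, c j * x j := by
    simp only [w, p, Option.elim, mul_zero, zero_add]
    refine Finset.sum_congr rfl fun j _ => ?_
    by_cases h : 0 ≤ c j
    · rw [if_pos h, abs_of_nonneg h]
      field_simp
    · rw [if_neg h, abs_of_neg (not_le.1 h)]
      field_simp
  rw [e1] at h2
  refine h2.trans ?_
  have h3 : w none * Real.exp (p none) ≤ 1 := by
    simp only [w, p, Option.elim, Real.exp_zero, mul_one]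
    have := Finset.sum_nonneg fun j (_ : j ∈ (Finset.univ : Finset ι)) => hw0 j
    linarith
  have h4 : ∑ j, w (some j) * Real.exp (p (some j)) ≤
      ∑ j, R * |c j| * (Real.exp (1 / R * x j) + Real.exp (-(1 / R) * x j)) := by
    refine Finset.sum_le_sum fun j _ => ?_
    simp only [w, p, Option.elim]
    refine mul_le_mul_of_nonneg_left ?_ (hw0 j)
    have h5 := Real.exp_pos (1 / R * x j)
    have h6 := Real.exp_pos (-(1 / R) * x j)
    by_cases h : 0 ≤ c j
    · rw [if_pos h]; linarith
    · rw [if_neg h]; linarith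
  linarith

/-- the products of powers are integrable, with bounded unit integrals -/
lemma pow_fam (hm : ∀ j, AEMeasurable (G j)) {R : ℝ} (hR : 0 < R)
    (hi : ∀ j (r : ℝ), R * |r| ≤ 1 → ∀ a e, IntervalIntegrable (fun u => Real.exp (r * G j u)) volume a e)
    (hB : ∀ j (r : ℝ), R * |r| ≤ 1 → ∀ t, ∫ u in t..(t + 1), Real.exp (r * G j u) ≤ 288000)
    {c : ι → ℝ} (hc : R * ∑ j, |c j| ≤ 1) :
    (∀ a e, IntervalIntegrable (fun u => Real.exp (∑ j, c j * G j u)) volume a e) ∧
    ∀ t, ∫ u in t..(t + 1), Real.exp (∑ j, c j * G j u) ≤ 576001 := by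
  have hr1 : R * |1 / R| ≤ 1 := by
    rw [abs_of_pos (by positivity)]
    field_simp
    exact le_rfl
  have hr2 : R * |(-(1 / R))| ≤ 1 := by rwa [abs_neg]
  have iS : ∀ a e, IntervalIntegrable (fun u => (∑ j, R * |c j| *
      (Real.exp (1 / R * G j u) + Real.exp (-(1 / R) * G j u))) + 1) volume a e := by
    intro a e
    have h1 := IntervalIntegrable.sum (μ := volume) (a := a) (b := e)
      (f := fun j u => R * |c j| * (Real.exp (1 / R * G j u) + Real.exp (-(1 / R) * G j u)))
      Finset.univ (fun j _ => ((hi j _ hr1 a e).add (hi j _ hr2 a e)).const_mul _)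
    have h2 : IntervalIntegrable (fun u => ∑ j, R * |c j| *
      (Real.exp (1 / R * G j u) + Real.exp (-(1 / R) * G j u))) volume a e :=
      h1.congr fun u _ => by simp
    exact h2.add intervalIntegrable_const
  have hI : ∀ a e, IntervalIntegrable (fun u => Real.exp (∑ j, c j * G j u)) volume a e := by
    intro a e
    refine (iS a e).mono_fun ?_ ?_
    · have h1 : AEMeasurable (fun u => ∑ j, c j * G j u) volume := by
        have := Finset.aemeasurable_sum (μ := (volume : Measure ℝ)) (f := fun j u => c j * G j u)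
          Finset.univ (fun j _ => (hm j).const_mul (c j))
        refine this.congr ?_
        refine Filter.Eventually.of_forall fun u => ?_
        simp
      exact (Real.measurable_exp.comp_aemeasurable h1).aestronglyMeasurable.restrict
    · filter_upwards with u
      rw [Real.norm_eq_abs, Real.norm_eq_abs, abs_of_pos (Real.exp_pos _)]
      exact (exp_sum_le hR hc fun j => G j u).trans (le_abs_self _)
  refine ⟨hI, fun t => ?_⟩
  have i1 : ∀ j, IntervalIntegrable (fun u => R * |c j| *
      (Real.exp (1 / R * G j u) + Real.exp (-(1 / R) * G j u))) volume t (t + 1) :=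
    fun j => ((hi j _ hr1 _ _).add (hi j _ hr2 _ _)).const_mul _
  have i2 : IntervalIntegrable (fun u => ∑ j, R * |c j| *
      (Real.exp (1 / R * G j u) + Real.exp (-(1 / R) * G j u))) volume t (t + 1) := by
    have h1 := IntervalIntegrable.sum (μ := volume) (a := t) (b := t + 1)
      (f := fun j u => R * |c j| * (Real.exp (1 / R * G j u) + Real.exp (-(1 / R) * G j u)))
      Finset.univ (fun j _ => i1 j)
    exact h1.congr fun u _ => by simp
  have hS0 : 0 ≤ ∑ j, R * |c j| := Finset.sum_nonneg fun j _ => by positivity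
  have hS1 : ∑ j, R * |c j| ≤ 1 := by rwa [← Finset.mul_sum]
  calc ∫ u in t..(t + 1), Real.exp (∑ j, c j * G j u)
      ≤ ∫ u in t..(t + 1), ((∑ j, R * |c j| *
          (Real.exp (1 / R * G j u) + Real.exp (-(1 / R) * G j u))) + 1) :=
        intervalIntegral.integral_mono_on (by linarith) (hI _ _) (iS _ _)
          fun u _ => exp_sum_le hR hc fun j => G j u
    _ = (∑ j, R * |c j| * ((∫ u in t..(t + 1), Real.exp (1 / R * G j u)) +
          ∫ u in t..(t + 1), Real.exp (-(1 / R) * G j u))) + 1 := by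
        rw [intervalIntegral.integral_add i2 intervalIntegrable_const,
          intervalIntegral.integral_finsetSum fun j _ => i1 j, intervalIntegral.integral_const]
        congr 1
        · refine Finset.sum_congr rfl fun j _ => ?_
          rw [intervalIntegral.integral_const_mul,
            intervalIntegral.integral_add (hi j _ hr1 _ _) (hi j _ hr2 _ _)]
        · rw [smul_eq_mul]
          ring
    _ ≤ (∑ j, R * |c j| * 576000) + 1 := by
        have : ∀ j ∈ (Finset.univ : Finset ι), R * |c j| * ((∫ u in t..(t + 1), Real.exp (1 / R * G j u)) +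
          ∫ u in t..(t + 1), Real.exp (-(1 / R) * G j u)) ≤ R * |c j| * 576000 := by
          intro j _
          refine mul_le_mul_of_nonneg_left ?_ (by positivity)
          have h1 := hB j _ hr1 t
          have h2 := hB j _ hr2 t
          linarith
        have := Finset.sum_le_sum this
        linarith
    _ ≤ 576001 := by
        rw [← Finset.sum_mul]
        nlinarith

/-- **Means of products of powers.** -/
theorem pow_mean (hm : ∀ j, AEMeasurable (G j)) {R : ℝ} (hR : 1 ≤ R)
    (hi : ∀ j (r : ℝ), R * |r| ≤ 1 → ∀ a e, IntervalIntegrable (fun u => Real.exp (r * G j u)) volume a e)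
    (hB : ∀ j (r : ℝ), R * |r| ≤ 1 → ∀ t, ∫ u in t..(t + 1), Real.exp (r * G j u) ≤ 288000)
    {c : ι → ℝ} (hc : 2 * R * ∑ j, |c j| ≤ 1)
    (Λ : ℝ → ℝ) (hΛ : ∀ ε, 0 < ε → 0 ≤ Λ ε)
    (hap : ∀ ε, 0 < ε → ∀ a : ℝ, ∃ τ ∈ Icc a (a + Λ ε), ∀ j, ∀ t : ℝ,
      IntervalIntegrable (fun u => (G j (u + τ) - G j u) ^ 2) volume t (t + 1) ∧
      ∫ u in t..(t + 1), (G j (u + τ) - G j u) ^ 2 ≤ ε ^ 2 / 5000000) :
    ∃ μ : ℝ, ∀ δ, 0 < δ → ∀ t H : ℝ, 1 ≤ H → 16 * (576001 * (Λ (δ / 16) + 1)) ≤ δ * H →
      |H⁻¹ * (∫ u in t..(t + H), Real.exp (∑ j, c j * G j u)) - μ| ≤ δ := by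
  have hS0 : 0 ≤ ∑ j, |c j| := Finset.sum_nonneg fun j _ => abs_nonneg _
  have hc1 : R * ∑ j, |c j| ≤ 1 := by nlinarith
  have hcs : ∑ j, |c j| ≤ 1 := by nlinarith
  have hc2 : R * ∑ j, |2 * c j| ≤ 1 := by
    simp_rw [abs_mul, abs_two]
    rw [← Finset.mul_sum]
    linarith
  obtain ⟨I1, B1⟩ := pow_fam hm (by linarith) hi hB hc1
  obtain ⟨I2, B2⟩ := pow_fam hm (by linarith) hi hB hc2
  refine mean_exists I1 (C := 576001) ?_ Λ hΛ ?_
  · intro t
    refine le_trans (le_of_eq ?_) (B1 t)
    congr 1
    funext u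
    exact abs_of_pos (Real.exp_pos _)
  · intro ε hε a
    obtain ⟨τ, hτ, h⟩ := hap ε hε a
    refine ⟨τ, hτ, fun t => ?_⟩
    set κ : ℝ := ε / 2304004 with hκ
    have hκ0 : 0 < κ := by positivity
    set g : ℝ → ℝ := fun u => ∑ j, c j * G j u with hg
    have sh : ∀ {q : ℝ → ℝ}, (∀ a e, IntervalIntegrable q volume a e) →
        IntervalIntegrable (fun u => q (u + τ)) volume t (t + 1) := by
      intro q hq
      have := (hq (t + τ) (t + 1 + τ)).comp_add_right τ
      simpa using this
    have e2 : ∀ u, ∑ j, 2 * c j * G j u = 2 * g u := by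
      intro u
      simp only [g, Finset.mul_sum]
      exact Finset.sum_congr rfl fun j _ => by ring
    simp_rw [e2] at I2 B2
    have B2' : ∫ u in t..(t + 1), Real.exp (2 * g (u + τ)) ≤ 576001 := by
      have e1 : ∫ u in t..(t + 1), Real.exp (2 * g (u + τ)) =
          ∫ u in (t + τ)..(t + 1 + τ), Real.exp (2 * g u) :=
        intervalIntegral.integral_comp_add_right (fun u => Real.exp (2 * g u)) τ
      rw [e1, show t + 1 + τ = t + τ + 1 by ring]
      exact B2 _
    have i1 := sh I1
    have i2 : IntervalIntegrable (fun u => Real.exp (2 * g (u + τ))) volume t (t + 1) := sh I2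
    have i3 := I2 t (t + 1)
    have i4 : ∀ j, IntervalIntegrable (fun u => |c j| * (G j (u + τ) - G j u) ^ 2) volume t (t + 1) :=
      fun j => (h j t).1.const_mul _
    have i5 : IntervalIntegrable (fun u => ∑ j, |c j| * (G j (u + τ) - G j u) ^ 2) volume t (t + 1) := by
      have h1 := IntervalIntegrable.sum (μ := volume) (a := t) (b := t + 1)
        (f := fun j u => |c j| * (G j (u + τ) - G j u) ^ 2) Finset.univ (fun j _ => i4 j)
      exact h1.congr fun u _ => by simp
    have h4 : ∫ u in t..(t + 1), |Real.exp (g (u + τ)) - Real.exp (g u)| ≤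
        ∫ u in t..(t + 1), (1 / (2 * κ) * (∑ j, |c j| * (G j (u + τ) - G j u) ^ 2) +
          κ * (Real.exp (2 * g (u + τ)) + Real.exp (2 * g u))) := by
      refine intervalIntegral.integral_mono_on (by linarith)
        (i1.sub (I1 _ _)).abs ((i5.const_mul _).add ((i2.add i3).const_mul _)) fun u _ => ?_
      have h5 := abs_exp_sub (g (u + τ)) (g u)
      have e3 : Real.exp (2 * g (u + τ)) = Real.exp (g (u + τ)) ^ 2 := by
        rw [← Real.exp_nat_mul]
        congr 1
      have e4 : Real.exp (2 * g u) = Real.exp (g u) ^ 2 := by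
        rw [← Real.exp_nat_mul]
        congr 1
      rw [e3, e4]
      set A := Real.exp (g (u + τ)) with hA
      set B := Real.exp (g u) with hB'
      have hA0 : 0 < A := Real.exp_pos _
      have hB0 : 0 < B := Real.exp_pos _
      have h6 : |g (u + τ) - g u| ≤ ∑ j, |c j| * |G j (u + τ) - G j u| := by
        have e5 : g (u + τ) - g u = ∑ j, c j * (G j (u + τ) - G j u) := by
          simp only [g, ← Finset.sum_sub_distrib]
          exact Finset.sum_congr rfl fun j _ => by ring
        rw [e5]
        refine (Finset.abs_sum_le_sum_abs _ _).trans (le_of_eq ?_)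
        exact Finset.sum_congr rfl fun j _ => abs_mul _ _
      refine (h5.trans (mul_le_mul_of_nonneg_right h6 (by positivity))).trans ?_
      have h7 : ∀ j, |c j| * |G j (u + τ) - G j u| * (A + B) ≤
          |c j| * (1 / (2 * κ) * (G j (u + τ) - G j u) ^ 2 + κ * (A ^ 2 + B ^ 2)) := by
        intro j
        rw [mul_assoc]
        refine mul_le_mul_of_nonneg_left ?_ (abs_nonneg _)
        set x := G j (u + τ) - G j u with hx
        have h7 : |x| ^ 2 = x ^ 2 := sq_abs _
        have h8 : 0 ≤ (|x| - κ * (A + B)) ^ 2 := sq_nonneg _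
        have e4 : 1 / (2 * κ) * x ^ 2 + κ * (A ^ 2 + B ^ 2) =
            (x ^ 2 + 2 * κ ^ 2 * (A ^ 2 + B ^ 2)) / (2 * κ) := by
          field_simp
        rw [e4, le_div_iff₀ (by positivity)]
        have h9 : (A + B) ^ 2 ≤ 2 * (A ^ 2 + B ^ 2) := by nlinarith [sq_nonneg (A - B)]
        have h10 : κ ^ 2 * (A + B) ^ 2 ≤ κ ^ 2 * (2 * (A ^ 2 + B ^ 2)) :=
          mul_le_mul_of_nonneg_left h9 (by positivity)
        nlinarith
      rw [Finset.sum_mul]
      refine (Finset.sum_le_sum fun j _ => h7 j).trans ?_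
      have e8 : ∑ j, |c j| * (1 / (2 * κ) * (G j (u + τ) - G j u) ^ 2 + κ * (A ^ 2 + B ^ 2)) =
          1 / (2 * κ) * (∑ j, |c j| * (G j (u + τ) - G j u) ^ 2) +
            (∑ j, |c j|) * (κ * (A ^ 2 + B ^ 2)) := by
        rw [Finset.mul_sum, Finset.sum_mul, ← Finset.sum_add_distrib]
        exact Finset.sum_congr rfl fun j _ => by ring
      rw [e8]
      have h11 : 0 ≤ κ * (A ^ 2 + B ^ 2) := by positivity
      have h12 := mul_le_mul_of_nonneg_right hcs h11
      linarith
    refine h4.trans ?_
    rw [intervalIntegral.integral_add (i5.const_mul _) ((i2.add i3).const_mul _),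
      intervalIntegral.integral_const_mul, intervalIntegral.integral_const_mul,
      intervalIntegral.integral_add i2 i3, intervalIntegral.integral_finsetSum fun j _ => i4 j]
    have h12 : ∑ j, ∫ u in t..(t + 1), |c j| * (G j (u + τ) - G j u) ^ 2 ≤ ε ^ 2 / 5000000 := by
      calc ∑ j, ∫ u in t..(t + 1), |c j| * (G j (u + τ) - G j u) ^ 2
          ≤ ∑ j, |c j| * (ε ^ 2 / 5000000) := by
            refine Finset.sum_le_sum fun j _ => ?_
            rw [intervalIntegral.integral_const_mul]
            exact mul_le_mul_of_nonneg_left (h j t).2 (abs_nonneg _)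
        _ = (∑ j, |c j|) * (ε ^ 2 / 5000000) := by rw [Finset.sum_mul]
        _ ≤ 1 * (ε ^ 2 / 5000000) := mul_le_mul_of_nonneg_right hcs (by positivity)
        _ = _ := one_mul _
    have h13 : 1 / (2 * κ) * ∑ j, ∫ u in t..(t + 1), |c j| * (G j (u + τ) - G j u) ^ 2 ≤ ε / 4 := by
      refine (mul_le_mul_of_nonneg_left h12 (by positivity)).trans ?_
      rw [hκ]
      have e6 : 1 / (2 * (ε / 2304004)) * (ε ^ 2 / 5000000) = ε * (2304004 / 10000000) := by
        field_simp
        norm_num
      rw [e6]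
      nlinarith
    have h14 : κ * ((∫ u in t..(t + 1), Real.exp (2 * g (u + τ))) +
        ∫ u in t..(t + 1), Real.exp (2 * g u)) ≤ κ * 1152002 :=
      mul_le_mul_of_nonneg_left (by linarith [B2 t]) hκ0.le
    have e7 : κ * 1152002 = ε / 2 := by
      rw [hκ]
      ring
    linarith

end Pool.Agent.U823.JL
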